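import Pool.Agent.X91.MQ.Glue

/-!
# Rank-one convex functions have points of differentiability in every ball
-/

set_option autoImplicit false

open Set Filter Topology MeasureTheory

namespace Pool.Agent.X91.MQ

open Pool.Agent.Helper188.Morrey Pool.Agent.X103.Morrey1

lemma line_lip {φ : ℝ → ℝ} (hφ : ConvexOn ℝ univ φ) {B s t : ℝ} (hst : s ≤ t)
    (h1 : |φ (s - 1)| ≤ B) (h2 : |φ s| ≤ B) (h3 : |φ t| ≤ B) (h4 : |φ (t + 1)| ≤ B) :
    |φ t - φ s| ≤ 2 * B * (t - s) := by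
  rcases eq_or_lt_of_le hst with h | h
  · subst h
    simp
  · have a1 := hφ.slope_mono_adjacent (mem_univ s) (mem_univ (t + 1)) h (show t < t + 1 by linarith)
    have a2 := hφ.slope_mono_adjacent (mem_univ (s - 1)) (mem_univ t) (show s - 1 < s by linarith) h
    have e1 : t + 1 - t = 1 := by ring
    have e2 : s - (s - 1) = 1 := by ring
    rw [e1, div_one, div_le_iff₀ (by linarith)] at a1
    rw [e2, div_one, le_div_iff₀ (by linarith)] at a2
    rw [abs_le] at h1 h2 h3 h4 ⊢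
    constructor
    · have : -(2 * B) ≤ φ s - φ (s - 1) := by linarith
      nlinarith
    · have : φ (t + 1) - φ t ≤ 2 * B := by linarith
      nlinarith

lemma lip_step {W : M2 → ℝ} (hW : RankOneConvex W) {A : M2} {B : ℝ}
    (hB : ∀ X, nrm (X - A) ≤ 2 → |W X| ≤ B) {F E : M2} (hE : nrm E ≤ 1) (hd : E.det = 0) {s : ℝ}
    (h0 : nrm (F - A) ≤ 1) (h1 : nrm (F + s • E - A) ≤ 1) :
    |W (F + s • E) - W F| ≤ 2 * B * |s| := by
  have hφ := hW.line F E hd
  have hb : ∀ u v : ℝ, nrm (F + u • E - A) ≤ 1 → |v| ≤ 1 → |W (F + (u + v) • E)| ≤ B := by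
    intro u v hu hv
    refine hB _ ?_
    have e : F + (u + v) • E - A = (F + u • E - A) + v • E := by
      rw [add_smul]; abel
    rw [e]
    refine (nrm_add _ _).trans ?_
    rw [nrm_smul]
    have := mul_le_mul hv hE (nrm_nonneg E) zero_le_one
    linarith
  have h0' : nrm (F + (0 : ℝ) • E - A) ≤ 1 := by rwa [zero_smul, add_zero]
  have p1 : |(0 : ℝ)| ≤ 1 := by norm_num
  have p2 : |(1 : ℝ)| ≤ 1 := by norm_num
  have p3 : |(-1 : ℝ)| ≤ 1 := by norm_num
  rcases le_total 0 s with hs | hs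
  · have key := line_lip hφ hs (B := B) (by simpa [sub_eq_add_neg] using hb 0 (-1) h0' p3)
      (by simpa using hb 0 0 h0' p1) (by simpa using hb s 0 h1 p1) (hb s 1 h1 p2)
    simp only [zero_smul, add_zero, sub_zero] at key
    rw [abs_of_nonneg hs]
    exact key
  · have key := line_lip hφ hs (B := B) (by simpa [sub_eq_add_neg] using hb s (-1) h1 p3)
      (by simpa using hb s 0 h1 p1) (by simpa using hb 0 0 h0' p1) (by simpa using hb 0 1 h0' p2)
    simp only [zero_smul, add_zero, zero_sub] at key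
    rw [abs_of_nonpos hs, abs_sub_comm]
    exact key

/-- The elementary matrices. -/
def Em (i j : Fin 2) : M2 := fun a b => if a = i ∧ b = j then 1 else 0

lemma Em_nrm (i j : Fin 2) : nrm (Em i j) ≤ 1 := by
  rw [nrm_le zero_le_one]
  intro a b
  unfold Em
  split_ifs <;> simp

lemma Em_det (i j : Fin 2) : (Em i j).det = 0 := by
  rw [Matrix.det_fin_two]
  fin_cases i <;> fin_cases j <;> simp [Em]

lemma nrm_le_of {X : M2} {R : ℝ} (hR : 0 ≤ R) (h : ∀ i j, |X i j| ≤ R) : nrm X ≤ R :=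
  (nrm_le hR).2 h

lemma entry_le (X : M2) (i j : Fin 2) : |X i j| ≤ nrm X := (nrm_le (nrm_nonneg X)).1 le_rfl i j

lemma loc_lip {W : M2 → ℝ} (hW : RankOneConvex W) (A : M2) :
    ∃ B : ℝ, 0 ≤ B ∧ ∀ X Y, nrm (X - A) ≤ 1 → nrm (Y - A) ≤ 1 →
      |W Y - W X| ≤ 8 * B * nrm (Y - X) := by
  obtain ⟨B, hB⟩ := ((isCompact_nrm (nrm A + 2))).exists_bound_of_continuousOn
    hW.continuous.continuousOn
  have hB' : ∀ X, nrm (X - A) ≤ 2 → |W X| ≤ B := by
    intro X hX
    have h1 : nrm X ≤ nrm A + 2 := by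
      have := nrm_add (X - A) A
      rw [sub_add_cancel] at this
      linarith
    have := hB X h1
    rwa [Real.norm_eq_abs] at this
  have hB0 : 0 ≤ B := (abs_nonneg _).trans (hB' A (by rw [sub_self, nrm_zero]; norm_num))
  refine ⟨B, hB0, fun X Y hX hY => ?_⟩
  have hx := fun i j => (nrm_le zero_le_one).1 hX i j
  have hy := fun i j => (nrm_le zero_le_one).1 hY i j
  simp only [Matrix.sub_apply] at hx hy
  set n : ℝ := nrm (Y - X) with hn
  have hs : ∀ i j, |(Y - X) i j| ≤ n := fun i j => entry_le (Y - X) i j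
  set F1 : M2 := X + (Y - X) 0 0 • Em 0 0 with hF1
  set F2 : M2 := F1 + (Y - X) 0 1 • Em 0 1 with hF2
  set F3 : M2 := F2 + (Y - X) 1 0 • Em 1 0 with hF3
  have e4 : F3 + (Y - X) 1 1 • Em 1 1 = Y := by
    ext i j
    fin_cases i <;> fin_cases j <;> simp [hF3, hF2, hF1, Em]
  have c1 : nrm (F1 - A) ≤ 1 := by
    refine nrm_le_of zero_le_one fun i j => ?_
    have := hx i j
    have := hy i j
    fin_cases i <;> fin_cases j <;> simp_all [Em]
  have c2 : nrm (F2 - A) ≤ 1 := by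
    refine nrm_le_of zero_le_one fun i j => ?_
    have := hx i j
    have := hy i j
    fin_cases i <;> fin_cases j <;> simp_all [Em]
  have c3 : nrm (F3 - A) ≤ 1 := by
    refine nrm_le_of zero_le_one fun i j => ?_
    have := hx i j
    have := hy i j
    fin_cases i <;> fin_cases j <;> simp_all [Em]
  have s1 := lip_step hW hB' (Em_nrm 0 0) (Em_det 0 0) hX c1
  have s2 := lip_step hW hB' (Em_nrm 0 1) (Em_det 0 1) c1 c2
  have s3 := lip_step hW hB' (Em_nrm 1 0) (Em_det 1 0) c2 c3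
  have s4 := lip_step hW hB' (Em_nrm 1 1) (Em_det 1 1) c3 (by rw [e4]; exact hY)
  rw [e4] at s4
  have m : ∀ i j, 2 * B * |(Y - X) i j| ≤ 2 * B * n := fun i j =>
    mul_le_mul_of_nonneg_left (hs i j) (by positivity)
  have e : W Y - W X = (W Y - W F3) + (W F3 - W F2) + (W F2 - W F1) + (W F1 - W X) := by ring
  rw [e]
  have t1 := abs_add_le ((W Y - W F3) + (W F3 - W F2) + (W F2 - W F1)) (W F1 - W X)
  have t2 := abs_add_le ((W Y - W F3) + (W F3 - W F2)) (W F2 - W F1)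
  have t3 := abs_add_le (W Y - W F3) (W F3 - W F2)
  have m1 := m 0 0
  have m2 := m 0 1
  have m3 := m 1 0
  have m4 := m 1 1
  have s1' : |W F1 - W X| ≤ 2 * B * |(Y - X) 0 0| := s1
  have s2' : |W F2 - W F1| ≤ 2 * B * |(Y - X) 0 1| := s2
  have s3' : |W F3 - W F2| ≤ 2 * B * |(Y - X) 1 0| := s3
  linarith

/-- The linear approximation property. -/
def LinAt (W : M2 → ℝ) (F₀ : M2) : Prop :=
  ∃ L : M2 →ₗ[ℝ] ℝ, ∀ τ : ℝ, 0 < τ → ∃ r : ℝ, 0 < r ∧ ∀ Y : M2, nrm Y ≤ r →
    |W (F₀ + Y) - W F₀ - L Y| ≤ τ * nrm Y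

/-- Points of differentiability exist in every ball. -/
theorem exists_linAt {W : M2 → ℝ} (hW : RankOneConvex W) (A : M2) {r : ℝ} (hr : 0 < r) :
    ∃ F₀ : M2, nrm (F₀ - A) < r ∧ LinAt W F₀ := by
  obtain ⟨B, hB0, hB⟩ := loc_lip hW A
  set a : V4 := fun i j => A i j with ha
  set f : V4 → ℝ := fun F => W (Matrix.of F) with hf
  set ρ : ℝ := min r 1 with hρ
  have hρ0 : 0 < ρ := lt_min hr one_pos
  have hlip : LipschitzOnWith (8 * B).toNNReal f (Metric.ball a ρ) := by
    refine LipschitzOnWith.of_dist_le_mul fun x hx y hy => ?_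
    rw [Real.dist_eq, dist_eq_norm, Real.coe_toNNReal _ (by positivity)]
    have hx' : ‖x - a‖ < ρ := by rwa [← dist_eq_norm]
    have hy' : ‖y - a‖ < ρ := by rwa [← dist_eq_norm]
    have h1 : nrm ((Matrix.of x : M2) - A) ≤ 1 :=
      (show ‖x - a‖ ≤ 1 from (hx'.le.trans (min_le_right _ _)))
    have h2 : nrm ((Matrix.of y : M2) - A) ≤ 1 :=
      (show ‖y - a‖ ≤ 1 from (hy'.le.trans (min_le_right _ _)))
    exact hB _ _ h2 h1
  have hae := hlip.ae_differentiableWithinAt (μ := volume) Metric.isOpen_ball.measurableSet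
  have hpos : (volume : Measure V4).restrict (Metric.ball a ρ) ≠ 0 := by
    intro h0
    rw [Measure.restrict_eq_zero] at h0
    exact (Metric.measure_ball_pos volume a hρ0).ne' h0
  have : (ae ((volume : Measure V4).restrict (Metric.ball a ρ))).NeBot := ae_neBot.2 hpos
  have hmem : ∀ᵐ x ∂((volume : Measure V4).restrict (Metric.ball a ρ)), x ∈ Metric.ball a ρ :=
    ae_restrict_mem Metric.isOpen_ball.measurableSet
  obtain ⟨x, hx, hxb⟩ := (hae.and hmem).exists
  have hd : DifferentiableAt ℝ f x := hx.differentiableAt (Metric.isOpen_ball.mem_nhds hxb)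
  have hx' : ‖x - a‖ < ρ := by rwa [← dist_eq_norm]
  refine ⟨Matrix.of x, (show ‖x - a‖ < r from hx'.trans_le (min_le_left _ _)), ?_⟩
  let ψ : M2 →ₗ[ℝ] V4 :=
    { toFun := fun A i j => A i j
      map_add' := fun _ _ => rfl
      map_smul' := fun _ _ => rfl }
  set D := fderiv ℝ f x with hD
  refine ⟨(D : V4 →ₗ[ℝ] ℝ) ∘ₗ ψ, fun τ hτ => ?_⟩
  have h1 := hd.hasFDerivAt.isLittleO
  have h2 := h1.def hτ
  rw [← hD] at h2
  obtain ⟨r', hr', hr2⟩ := Metric.eventually_nhds_iff.1 h2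
  refine ⟨r' / 2, by positivity, fun Y hY => ?_⟩
  have h3 := @hr2 (x + (fun i j => Y i j)) (by
    rw [dist_eq_norm, add_sub_cancel_left]
    have : ‖(fun i j => Y i j : V4)‖ ≤ r' / 2 := hY
    linarith)
  rw [add_sub_cancel_left, Real.norm_eq_abs] at h3
  exact h3

end Pool.Agent.X91.MQ
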