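import Pool.Agent.X103.Morrey1

/-!
# Gluing a rank-one convex function to a multiple of the norm, and smooth approximation
-/

set_option autoImplicit false

open Set Filter Topology MeasureTheory

namespace Pool.Agent.X91.MQ

open Pool.Agent.Helper188.Morrey Pool.Agent.X103.Morrey1

/-- The largest absolute value of an entry. -/
noncomputable def nrm (X : M2) : ℝ := ‖(fun i j => X i j : V4)‖

lemma nrm_nonneg (X : M2) : 0 ≤ nrm X := norm_nonneg _

lemma nrm_add (X Y : M2) : nrm (X + Y) ≤ nrm X + nrm Y :=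
  norm_add_le (fun i j => X i j : V4) (fun i j => Y i j : V4)

lemma nrm_smul (c : ℝ) (X : M2) : nrm (c • X) = |c| * nrm X := by
  have := norm_smul c (fun i j => X i j : V4)
  rwa [Real.norm_eq_abs] at this

lemma nrm_le {X : M2} {R : ℝ} (hR : 0 ≤ R) : nrm X ≤ R ↔ ∀ i j, |X i j| ≤ R := by
  unfold nrm
  rw [pi_norm_le_iff_of_nonneg hR]
  exact forall_congr' fun i => by
    rw [pi_norm_le_iff_of_nonneg hR]
    exact forall_congr' fun j => by rw [Real.norm_eq_abs]

lemma nrm_zero : nrm 0 = 0 := by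
  have h := nrm_smul 0 (0 : M2)
  simpa using h

lemma continuous_nrm : Continuous nrm := by
  unfold nrm
  have h : Continuous (fun X : M2 => (fun i j => X i j : V4)) :=
    continuous_pi fun i => continuous_pi fun j => by fun_prop
  exact h.norm

lemma isCompact_nrm (R : ℝ) : IsCompact {X : M2 | nrm X ≤ R} := by
  have h : IsCompact (Metric.closedBall (0 : V4) R) := isCompact_closedBall _ _
  have e : {X : M2 | nrm X ≤ R} = (fun F : V4 => (Matrix.of F : M2)) '' Metric.closedBall (0 : V4) R := by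
    ext X
    constructor
    · intro hX
      exact ⟨fun i j => X i j, mem_closedBall_zero_iff.2 hX, rfl⟩
    · rintro ⟨F, hF, rfl⟩
      exact mem_closedBall_zero_iff.1 hF
  rw [e]
  exact h.image (by fun_prop)

/-- A convexity lemma on the line. -/
lemma glue1 {u v n : ℝ → ℝ} (hu : ConvexOn ℝ univ u) (hv : ConvexOn ℝ univ v)
    (hn : Continuous n) (ρ : ℝ) (hb : ∀ s, n s = ρ → u s ≤ v s) (w : ℝ → ℝ)
    (hw : ∀ s, w s = if n s ≤ ρ then max (u s) (v s) else v s) {t : ℝ} (h0 : 0 ≤ t) (h1 : t ≤ 1) :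
    w t ≤ (1 - t) * w 0 + t * w 1 := by
  have hvw : ∀ s, v s ≤ w s := by
    intro s
    rw [hw]
    split_ifs
    · exact le_max_right _ _
    · exact le_rfl
  have huw : ∀ s, n s ≤ ρ → u s ≤ w s := by
    intro s hs
    rw [hw, if_pos hs]
    exact le_max_left _ _
  have hvc : ∀ s, 0 ≤ s → s ≤ 1 → v s ≤ (1 - s) * w 0 + s * w 1 := by
    intro s hs0 hs1
    have h := hv.2 (mem_univ 0) (mem_univ 1) (show 0 ≤ 1 - s by linarith) hs0 (by ring)
    simp only [smul_eq_mul, mul_zero, mul_one, zero_add] at h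
    have h2 := mul_le_mul_of_nonneg_left (hvw 0) (show 0 ≤ 1 - s by linarith)
    have h3 := mul_le_mul_of_nonneg_left (hvw 1) hs0
    linarith
  by_cases hz : w t ≤ v t
  · exact hz.trans (hvc t h0 h1)
  push Not at hz
  have hnt : n t ≤ ρ := by
    by_contra hcon
    rw [hw, if_neg hcon] at hz
    exact lt_irrefl _ hz
  have hwt : w t = u t := by
    rw [hw, if_pos hnt] at hz ⊢
    rcases le_total (u t) (v t) with h | h
    · rw [max_eq_right h] at hz
      exact absurd hz (lt_irrefl _)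
    · exact max_eq_left h
  have hwb : ∀ s, n s = ρ → 0 ≤ s → s ≤ 1 → w s ≤ (1 - s) * w 0 + s * w 1 := by
    intro s hs hs0 hs1
    rw [hw s, if_pos hs.le, max_eq_right (hb s hs)]
    exact hvc s hs0 hs1
  obtain ⟨y, hy1, hy2, hy3, hy4⟩ : ∃ y, t ≤ y ∧ y ≤ 1 ∧ n y ≤ ρ ∧
      w y ≤ (1 - y) * w 0 + y * w 1 := by
    by_cases h : n 1 ≤ ρ
    · exact ⟨1, h1, le_rfl, h, by linarith⟩
    · push Not at h
      obtain ⟨y, hy, hy'⟩ := intermediate_value_Icc h1 hn.continuousOn ⟨hnt, h.le⟩
      exact ⟨y, hy.1, hy.2, hy'.le, hwb y hy' (h0.trans hy.1) hy.2⟩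
  obtain ⟨x, hx1, hx2, hx3, hx4⟩ : ∃ x, 0 ≤ x ∧ x ≤ t ∧ n x ≤ ρ ∧
      w x ≤ (1 - x) * w 0 + x * w 1 := by
    by_cases h : n 0 ≤ ρ
    · exact ⟨0, le_rfl, h0, h, by linarith⟩
    · push Not at h
      obtain ⟨x, hx, hx'⟩ := intermediate_value_Icc' h0 hn.continuousOn ⟨hnt, h.le⟩
      exact ⟨x, hx.1, hx.2, hx'.le, hwb x hx' hx.1 (hx.2.trans h1)⟩
  rcases eq_or_lt_of_le (hx2.trans hy1) with hxy | hxy
  · have : x = t := le_antisymm hx2 (by rw [hxy]; exact hy1)
    rw [this] at hx4
    exact hx4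
  · have hd : 0 < y - x := by linarith
    have ha : 0 ≤ (y - t) / (y - x) := div_nonneg (by linarith) hd.le
    have hb' : 0 ≤ (t - x) / (y - x) := div_nonneg (by linarith) hd.le
    have hab : (y - t) / (y - x) + (t - x) / (y - x) = 1 := by
      field_simp
      ring
    have h := hu.2 (mem_univ x) (mem_univ y) ha hb' hab
    simp only [smul_eq_mul] at h
    have e : (y - t) / (y - x) * x + (t - x) / (y - x) * y = t := by
      field_simp
      ring
    rw [e] at h
    have h2 := mul_le_mul_of_nonneg_left ((huw x hx3).trans hx4) ha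
    have h3 := mul_le_mul_of_nonneg_left ((huw y hy3).trans hy4) hb'
    rw [hwt]
    have e2 : (y - t) / (y - x) * ((1 - x) * w 0 + x * w 1) +
        (t - x) / (y - x) * ((1 - y) * w 0 + y * w 1) = (1 - t) * w 0 + t * w 1 := by
      field_simp
      ring
    linarith

lemma nrm_convex (a b : ℝ) (ha : 0 ≤ a) (F G : M2) :
    ConvexOn ℝ univ (fun s : ℝ => a * nrm (F + s • G) - b) := by
  refine ⟨convex_univ, fun x _ y _ p q hp hq hpq => ?_⟩
  have e : F + (p • x + q • y) • G = p • (F + x • G) + q • (F + y • G) := by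
    have hq' : p = 1 - q := by linarith
    subst hq'
    ext i j
    simp only [Matrix.add_apply, Matrix.smul_apply, smul_eq_mul]
    ring
  have h := nrm_add (p • (F + x • G)) (q • (F + y • G))
  rw [← e, nrm_smul, nrm_smul, abs_of_nonneg hp, abs_of_nonneg hq] at h
  simp only [smul_eq_mul] at h ⊢
  have h2 := mul_le_mul_of_nonneg_left h ha
  have : b = p * b + q * b := by rw [← add_mul, hpq, one_mul]
  nlinarith

/-- **Gluing.** Every rank-one convex function agrees on a given ball with a rank-one convex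
function of linear growth. -/
theorem glue {h : M2 → ℝ} (hh : RankOneConvex h) (R : ℝ) (hR : 0 ≤ R) :
    ∃ H : M2 → ℝ, RankOneConvex H ∧ (∀ X, nrm X ≤ R → H X = h X) ∧
      (∃ C : ℝ, 0 ≤ C ∧ ∀ X, |H X| ≤ C * (1 + nrm X)) ∧
      ∃ a b : ℝ, ∀ X, R + 1 < nrm X → H X = a * nrm X - b := by
  obtain ⟨B, hB⟩ := (isCompact_nrm (R + 1)).exists_bound_of_continuousOn hh.continuous.continuousOn
  have hB0 : 0 ≤ B := by
    have := hB 0 (by rw [mem_setOf_eq, nrm_zero]; linarith)
    exact (norm_nonneg _).trans this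
  set a : ℝ := 2 * B + 2 with ha
  set b : ℝ := a * R + B + 1 / 2 with hb
  set H : M2 → ℝ := fun X => if nrm X ≤ R + 1 then max (h X) (a * nrm X - b) else a * nrm X - b
    with hH
  have hbd : ∀ X, nrm X ≤ R + 1 → |h X| ≤ B := fun X hX => by
    have := hB X hX
    rwa [Real.norm_eq_abs] at this
  refine ⟨H, ?_, ?_, ⟨a + b + B, by positivity, ?_⟩, a, b, ?_⟩
  · intro F G hG t h0 h1
    have hd := det_eq_zero_of_rank hG.le
    have e0 : (1 - t) • F + t • (F + G) = F + t • G := by
      ext i j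
      simp only [Matrix.add_apply, Matrix.smul_apply, smul_eq_mul]
      ring
    have key := glue1 (u := fun s => h (F + s • G)) (v := fun s => a * nrm (F + s • G) - b)
      (n := fun s => nrm (F + s • G)) (hh.line F G hd) (nrm_convex a b (by positivity) F G)
      (continuous_nrm.comp (by fun_prop)) (R + 1) (fun s hs => by
        have h2 := (abs_le.1 (hbd _ hs.le)).2
        have hs' : nrm (F + s • G) = R + 1 := hs
        simp only [hs']
        have : a * (R + 1) - b = B + 3 / 2 := by rw [hb, ha]; ring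
        linarith) (fun s => H (F + s • G)) (fun s => rfl) h0 h1
    simp only [zero_smul, add_zero, one_smul] at key
    rw [e0]
    exact key
  · intro X hX
    have h1 : nrm X ≤ R + 1 := by linarith
    have h2 := (abs_le.1 (hbd X h1)).1
    have h3 : a * nrm X ≤ a * R := mul_le_mul_of_nonneg_left hX (by positivity)
    simp only [hH, if_pos h1]
    exact max_eq_left (by rw [hb]; linarith)
  · intro X
    have hn := nrm_nonneg X
    have ha0 : 0 ≤ a := by positivity
    have hb0 : 0 ≤ b := by positivity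
    have h1 : |a * nrm X - b| ≤ (a + b + B) * (1 + nrm X) := by
      rw [abs_le]
      constructor <;> nlinarith [mul_nonneg ha0 hn, mul_nonneg hb0 hn, mul_nonneg hB0 hn]
    simp only [hH]
    split_ifs with hX
    · have h2 : |h X| ≤ (a + b + B) * (1 + nrm X) := by
        refine (hbd X hX).trans ?_
        nlinarith [mul_nonneg ha0 hn, mul_nonneg hb0 hn, mul_nonneg hB0 hn]
      rw [abs_le] at h1 h2 ⊢
      exact ⟨h1.1.trans (le_max_right _ _), max_le h2.2 h1.2⟩
    · exact h1
  · intro X hX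
    simp only [hH]
    rw [if_neg (not_le.2 hX)]

lemma of_rc {f : V4 → ℝ} (hf : RC f) : RankOneConvex (fun A : M2 => f (fun i j => A i j)) := by
  intro F H hH t h0 h1
  have hd := det_eq_zero_of_rank hH.le
  have h := (hf (fun i j => F i j) (fun i j => H i j) hd).2 (mem_univ 0) (mem_univ 1)
    (show 0 ≤ 1 - t by linarith) h0 (by ring)
  simp only [smul_eq_mul, mul_zero, mul_one, zero_add, zero_smul, add_zero, one_smul] at h
  have e : (fun i j => ((1 - t) • F + t • (F + H)) i j : V4) =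
      (fun i j => F i j) + t • (fun i j => H i j) := by
    funext i j
    simp only [Matrix.add_apply, Matrix.smul_apply, smul_eq_mul, Pi.add_apply, Pi.smul_apply]
    ring
  show f _ ≤ _
  rw [e]
  exact h

/-- **Smooth approximation.** -/
theorem approx {W : M2 → ℝ} (hW : RankOneConvex W) (R η : ℝ) (hη : 0 < η) :
    ∃ g : M2 → ℝ, RankOneConvex g ∧ (∀ F, nrm F ≤ R → |g F - W F| ≤ η) ∧
      ∀ F₀ : M2, ∃ L : M2 →ₗ[ℝ] ℝ, ∀ τ : ℝ, 0 < τ → ∃ r : ℝ, 0 < r ∧ ∀ Y : M2, nrm Y ≤ r →
        |g (F₀ + Y) - g F₀ - L Y| ≤ τ * nrm Y := by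
  obtain ⟨g, hg1, hg2, hg3⟩ := mollify (f := fun F : V4 => W (Matrix.of F)) hW.continuous
    (rc_of hW) R η hη
  refine ⟨fun A => g (fun i j => A i j), of_rc hg2, fun F hF => hg3 (fun i j => F i j) hF,
    fun F₀ => ?_⟩
  have hd : DifferentiableAt ℝ g (fun i j => F₀ i j) := hg1.differentiable (by norm_num) _
  set D := fderiv ℝ g (fun i j => F₀ i j) with hD
  let ψ : M2 →ₗ[ℝ] V4 :=
    { toFun := fun A i j => A i j
      map_add' := fun _ _ => rfl
      map_smul' := fun _ _ => rfl }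
  refine ⟨(D : V4 →ₗ[ℝ] ℝ) ∘ₗ ψ, fun τ hτ => ?_⟩
  have h1 := hd.hasFDerivAt.isLittleO
  have h2 := h1.def hτ
  rw [← hD] at h2
  obtain ⟨r, hr, hr2⟩ := Metric.eventually_nhds_iff.1 h2
  refine ⟨r / 2, by positivity, fun Y hY => ?_⟩
  have h3 := @hr2 ((fun i j => F₀ i j) + (fun i j => Y i j)) (by
    rw [dist_eq_norm, add_sub_cancel_left]
    have : ‖(fun i j => Y i j : V4)‖ ≤ r / 2 := hY
    linarith)
  rw [add_sub_cancel_left, Real.norm_eq_abs] at h3
  exact h3

end Pool.Agent.X91.MQ
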