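import Pool.Agent.X91.MQ.Univ

/-!
# The two spaces of rank-one convex functions
-/

set_option autoImplicit false

open Set Filter Topology MeasureTheory
open scoped BoundedContinuousFunction

namespace Pool.Agent.X91.MQ

open Pool.Agent.Helper188.Morrey Pool.Agent.X103.Morrey1

lemma RankOneConvex.add' {W V : M2 → ℝ} (hW : RankOneConvex W) (hV : RankOneConvex V) :
    RankOneConvex (fun F => W F + V F) := by
  intro F H hH t h0 h1
  have a := hW F H hH t h0 h1
  have b := hV F H hH t h0 h1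
  show W _ + V _ ≤ _
  linarith

lemma RankOneConvex.smul' {W : M2 → ℝ} (hW : RankOneConvex W) {c : ℝ} (hc : 0 ≤ c) :
    RankOneConvex (fun F => c * W F) := by
  intro F H hH t h0 h1
  have a := mul_le_mul_of_nonneg_left (hW F H hH t h0 h1) hc
  show c * W _ ≤ _
  linarith

lemma RankOneConvex.comp' {W : M2 → ℝ} (hW : RankOneConvex W) (c : ℝ) (A : M2) :
    RankOneConvex (fun F => W (c • (F - A))) := by
  intro F H hH t h0 h1
  have hd := det_eq_zero_of_rank hH.le
  have a := hW.seg (c • (F - A)) (c • H) (det_smul_zero hd c) h0 h1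
  have e1 : c • ((1 - t) • F + t • (F + H) - A) =
      c • (F - A) + t • c • H := by
    ext i j
    simp only [Matrix.add_apply, Matrix.smul_apply, Matrix.sub_apply, smul_eq_mul]
    ring
  have e2 : c • (F + H - A) = c • (F - A) + c • H := by
    rw [← smul_add]; congr 1; abel
  simp only [e1, e2]
  exact a

lemma RankOneConvex.comp_add {W : M2 → ℝ} (hW : RankOneConvex W) (A : M2) :
    RankOneConvex (fun F => W (A + F)) := by
  have := RankOneConvex.comp' hW 1 (-A)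
  have e : (fun F : M2 => W ((1 : ℝ) • (F - -A))) = fun F => W (A + F) := by
    funext F
    rw [one_smul, sub_neg_eq_add, add_comm]
  rwa [e] at this

lemma pert_bound {H : M2 → ℝ} {C : ℝ} (hC : 0 ≤ C) (hH : ∀ X, |H X| ≤ C * (1 + nrm X)) {c δ : ℝ}
    (hc : 0 < c) (hδ : 0 < δ) (hδ1 : δ ≤ 1) (F₀ F : M2) :
    |c * δ * H (δ⁻¹ • (F - F₀))| ≤ c * C * (1 + nrm (F - F₀)) := by
  rw [abs_mul, abs_of_pos (mul_pos hc hδ)]
  have h1 := hH (δ⁻¹ • (F - F₀))
  rw [nrm_smul, abs_of_pos (inv_pos.2 hδ)] at h1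
  have h2 := mul_le_mul_of_nonneg_left h1 (mul_pos hc hδ).le
  have e : c * δ * (C * (1 + δ⁻¹ * nrm (F - F₀))) = c * C * (δ + nrm (F - F₀)) := by
    field_simp
  rw [e] at h2
  have h3 : c * C * (δ + nrm (F - F₀)) ≤ c * C * (1 + nrm (F - F₀)) :=
    mul_le_mul_of_nonneg_left (by linarith) (mul_nonneg hc.le hC)
  linarith

/-! ### Locally uniform convergence -/

instance : BaireSpace RCset := by
  have h1 : CompleteSpace RCset := isClosed_RCset.completeSpace_coe
  exact inferInstance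

lemma continuous_loc : Continuous fun p : RCset × M2 => (p.1 : C(M2, ℝ)) p.2 := by fun_prop

lemma stable_loc : Stable (fun x : RCset => ((x : C(M2, ℝ)) : M2 → ℝ)) := by
  intro x U hU F₀ H hH ⟨C, hC, hHC⟩
  obtain ⟨V, hV, hVU⟩ := mem_nhds_induced Subtype.val x U |>.1 hU
  obtain ⟨⟨K, E⟩, ⟨hK, hE⟩, hKE⟩ := (nhds_basis_uniformity
    (ContinuousMap.hasBasis_compactConvergenceUniformity (α := M2) (β := ℝ))).mem_iff.1 hV
  obtain ⟨ε, hε, hεE⟩ := Metric.mem_uniformity_dist.1 hE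
  obtain ⟨B, hB⟩ := hK.exists_bound_of_continuousOn
    (f := fun F => nrm (F - F₀)) (continuous_nrm.comp (by fun_prop)).continuousOn
  set M : ℝ := C * (1 + |B|) + 1 with hM
  have hM0 : 0 < M := by positivity
  refine ⟨ε / M, by positivity, fun c hc hc' δ hδ hδ1 => ?_⟩
  have hg : RankOneConvex (fun F => (x : C(M2, ℝ)) F + c * δ * H (δ⁻¹ • (F - F₀))) :=
    RankOneConvex.add' x.2 (RankOneConvex.smul' (RankOneConvex.comp' hH δ⁻¹ F₀)
      (mul_pos hc hδ).le)
  refine ⟨⟨⟨_, hg.continuous⟩, hg⟩, hVU (hKE ?_), fun F => rfl⟩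
  intro F hF
  apply hεE
  rw [Real.dist_eq]
  show |((x : C(M2, ℝ)) F + c * δ * H (δ⁻¹ • (F - F₀))) - (x : C(M2, ℝ)) F| < ε
  rw [add_sub_cancel_left]
  have h1 := pert_bound hC hHC hc hδ hδ1 F₀ F
  have h2 : nrm (F - F₀) ≤ |B| := by
    have := hB F hF
    rw [Real.norm_eq_abs] at this
    exact (le_abs_self _).trans (this.trans (le_abs_self _))
  have h3 : c * C * (1 + nrm (F - F₀)) ≤ c * C * (1 + |B|) :=
    mul_le_mul_of_nonneg_left (by linarith) (mul_nonneg hc.le hC)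
  have h4 : c * M < ε := by rwa [lt_div_iff₀ hM0] at hc'
  have h5 : c * M = c * C * (1 + |B|) + c := by rw [hM]; ring
  linarith

/-! ### Weighted spaces -/

/-- The functions `v = W / ω`. -/
def WSet (ω : M2 → ℝ) : Set (M2 →ᵇ ℝ) := {v | RankOneConvex (fun F => ω F * v F)}

lemma isClosed_WSet (ω : M2 → ℝ) : IsClosed (WSet ω) := by
  have e : WSet ω = ⋂ (F : M2) (H : M2) (_ : H.rank = 1) (t : ℝ) (_ : 0 ≤ t) (_ : t ≤ 1),
      {v : M2 →ᵇ ℝ | ω ((1 - t) • F + t • (F + H)) * v ((1 - t) • F + t • (F + H)) ≤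
        (1 - t) * (ω F * v F) + t * (ω (F + H) * v (F + H))} := by
    ext g
    simp only [WSet, RankOneConvex, mem_ofPred_eq, mem_iInter]
  rw [e]
  refine isClosed_iInter fun F => isClosed_iInter fun H => isClosed_iInter fun _ =>
    isClosed_iInter fun t => isClosed_iInter fun _ => isClosed_iInter fun _ => ?_
  have hev : ∀ A : M2, Continuous fun v : M2 →ᵇ ℝ => v A := fun A => by fun_prop
  refine isClosed_le ((hev _).const_mul _) ?_
  exact (((hev F).const_mul _).const_mul _).add (((hev (F + H)).const_mul _).const_mul _)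

instance (ω : M2 → ℝ) : BaireSpace (WSet ω) := by
  have h1 : CompleteSpace (WSet ω) := (isClosed_WSet ω).completeSpace_coe
  exact inferInstance

lemma continuous_wt {ω : M2 → ℝ} (hω : Continuous ω) :
    Continuous fun p : WSet ω × M2 => ω p.2 * (p.1 : M2 →ᵇ ℝ) p.2 := by
  have h1 : Continuous fun p : WSet ω × M2 => (p.1 : M2 →ᵇ ℝ) p.2 := by fun_prop
  exact (hω.comp continuous_snd).mul h1

lemma stable_wt {ω : M2 → ℝ} (hω : Continuous ω) {κ : ℝ} (hκ : 0 < κ)
    (hωκ : ∀ F, κ * (1 + nrm F) ≤ ω F) :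
    Stable (fun (x : WSet ω) (F : M2) => ω F * (x : M2 →ᵇ ℝ) F) := by
  intro x U hU F₀ H hH ⟨C, hC, hHC⟩
  obtain ⟨V, hV, hVU⟩ := mem_nhds_induced Subtype.val x U |>.1 hU
  obtain ⟨ε, hε, hεV⟩ := Metric.mem_nhds_iff.1 hV
  set M : ℝ := C * (1 + nrm F₀) / κ + 1 with hM
  have hM0 : 0 < M := by
    have := nrm_nonneg F₀
    positivity
  have hω0 : ∀ F, 0 < ω F := fun F => by
    have h1 := nrm_nonneg F
    exact lt_of_lt_of_le (by positivity) (hωκ F)
  refine ⟨ε / (2 * M), by positivity, fun c hc hc' δ hδ hδ1 => ?_⟩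
  have hHc : Continuous (fun F => c * δ * H (δ⁻¹ • (F - F₀)) / ω F) := by
    refine Continuous.div ?_ hω fun F => (hω0 F).ne'
    exact continuous_const.mul (hH.continuous.comp (by fun_prop))
  have hbd : ∀ F, |c * δ * H (δ⁻¹ • (F - F₀)) / ω F| ≤ c * M := by
    intro F
    rw [abs_div, abs_of_pos (hω0 F), div_le_iff₀ (hω0 F)]
    have h1 := pert_bound hC hHC hc hδ hδ1 F₀ F
    have h2 : nrm (F - F₀) ≤ nrm F + nrm F₀ := by
      have := nrm_add F (-F₀)
      have e : nrm (-F₀) = nrm F₀ := by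
        have := nrm_smul (-1) F₀
        simpa using this
      rw [e, ← sub_eq_add_neg] at this
      exact this
    have n1 := nrm_nonneg F
    have n2 := nrm_nonneg F₀
    have h3 : 1 + nrm (F - F₀) ≤ (1 + nrm F₀) * (1 + nrm F) := by nlinarith
    have h4 : c * C * (1 + nrm (F - F₀)) ≤ c * C * ((1 + nrm F₀) * (1 + nrm F)) :=
      mul_le_mul_of_nonneg_left h3 (mul_nonneg hc.le hC)
    have h5 : 1 + nrm F ≤ ω F / κ := by
      rw [le_div_iff₀ hκ]
      linarith [hωκ F]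
    have h6 : c * C * ((1 + nrm F₀) * (1 + nrm F)) ≤ c * C * ((1 + nrm F₀) * (ω F / κ)) := by
      refine mul_le_mul_of_nonneg_left (mul_le_mul_of_nonneg_left h5 (by linarith))
        (mul_nonneg hc.le hC)
    have h7 : c * M * ω F = c * C * ((1 + nrm F₀) * (ω F / κ)) + c * ω F := by
      rw [hM]; ring
    have h8 := mul_pos hc (hω0 F)
    linarith
  set p : M2 →ᵇ ℝ := BoundedContinuousFunction.ofNormedAddCommGroup
    (fun F => c * δ * H (δ⁻¹ • (F - F₀)) / ω F) hHc (c * M) (fun F => by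
      rw [Real.norm_eq_abs]; exact hbd F) with hp
  have hval : ∀ F, ω F * ((x : M2 →ᵇ ℝ) + p) F =
      ω F * (x : M2 →ᵇ ℝ) F + c * δ * H (δ⁻¹ • (F - F₀)) := by
    intro F
    have : p F = c * δ * H (δ⁻¹ • (F - F₀)) / ω F := rfl
    rw [BoundedContinuousFunction.coe_add, Pi.add_apply, this, mul_add,
      mul_div_cancel₀ _ (hω0 F).ne']
  have hg : (x : M2 →ᵇ ℝ) + p ∈ WSet ω := by
    have e : (fun F => ω F * ((x : M2 →ᵇ ℝ) + p) F) =
        fun F => ω F * (x : M2 →ᵇ ℝ) F + c * δ * H (δ⁻¹ • (F - F₀)) := funext hval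
    have h1 : RankOneConvex (fun F => ω F * ((x : M2 →ᵇ ℝ) + p) F) := by
      rw [e]
      exact RankOneConvex.add' x.2 (RankOneConvex.smul' (RankOneConvex.comp' hH δ⁻¹ F₀)
        (mul_pos hc hδ).le)
    exact h1
  refine ⟨⟨(x : M2 →ᵇ ℝ) + p, hg⟩, hVU (hεV ?_), hval⟩
  rw [Metric.mem_ball, dist_eq_norm]
  show ‖(x : M2 →ᵇ ℝ) + p - (x : M2 →ᵇ ℝ)‖ < ε
  rw [add_sub_cancel_left]
  have h1 : ‖p‖ ≤ c * M := BoundedContinuousFunction.norm_ofNormedAddCommGroup_le _
    (mul_pos hc hM0).le _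
  have h2 : c * (2 * M) < ε := by rwa [lt_div_iff₀ (by positivity)] at hc'
  have h3 := mul_pos hc hM0
  linarith

end Pool.Agent.X91.MQ
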