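import Pool.Agent.X91.MQ.Spaces

/-!
# Test maps for universal functions
-/

set_option autoImplicit false

open Set Filter Topology MeasureTheory
open scoped NNReal

namespace Pool.Agent.X91.MQ

open Pool.Agent.Helper188.Morrey Pool.Agent.X103.Morrey1

variable {Ω : Set (Fin 2 → ℝ)} {ϑ : (Fin 2 → ℝ) → (Fin 2 → ℝ)}

lemma grad_smul (δ : ℝ) (x : Fin 2 → ℝ) : grad (δ • ϑ) x = δ • grad ϑ x := by
  unfold grad
  rw [fderiv_const_smul_field]
  ext i j
  simp [LinearMap.toMatrix'_apply]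

/-- Universal functions violate the inequality for multiples of all test maps which are bad for
some function. -/
theorem universal_tests {W : M2 → ℝ} (hW : RankOneConvex W) (hU : Universal W) (hΩ : IsOpen Ω)
    (hb : Bornology.IsBounded Ω) {K : ℝ≥0} (hK : LipschitzWith K ϑ) (h0 : ∀ x, x ∉ Ω → ϑ x = 0)
    {V : M2 → ℝ} (hV : RankOneConvex V) {F₁ : M2}
    (hbad : ∫ x in Ω, V (F₁ + grad ϑ x) < V F₁ * (volume Ω).toReal) {η : ℝ} (hη : 0 < η) :
    ∃ G : Set M2, IsOpen G ∧ Dense G ∧ ∀ F₀ ∈ G, ∃ δ : ℝ, 0 < δ ∧ δ < η ∧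
      ∫ x in Ω, W (F₀ + grad (δ • ϑ) x) < W F₀ * (volume Ω).toReal := by
  set m : ℝ := (volume Ω).toReal with hm
  have hm0 : 0 ≤ m := ENNReal.toReal_nonneg
  set g : ℝ := V F₁ * m - ∫ x in Ω, V (F₁ + grad ϑ x) with hg
  have hg0 : 0 < g := by linarith
  set ε : ℝ := min η (g / (4 * (m + 1))) with hε
  have hε0 : 0 < ε := lt_min hη (by positivity)
  obtain ⟨G, hG1, hG2, hG3⟩ := hU (fun X => V (F₁ + X)) (RankOneConvex.comp_add hV F₁) K ε hε0
  refine ⟨G, hG1, hG2, fun F₀ hF => ?_⟩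
  obtain ⟨δ, c, hδ, hδ', hc, hc', a, L, hL⟩ := hG3 F₀ hF
  refine ⟨δ, hδ, hδ'.trans_le (min_le_left _ _), ?_⟩
  have : IsFiniteMeasure (volume.restrict Ω) := ⟨by
    rw [Measure.restrict_apply_univ]; exact hb.measure_lt_top⟩
  have hbd : ∀ x, nrm (grad ϑ x) ≤ K := fun x =>
    (nrm_le K.2).2 fun i j => grad_bound hK x i j
  have hcd : 0 < c * δ := mul_pos hc hδ
  have i1 : Integrable (fun x => W (F₀ + δ • grad ϑ x)) (volume.restrict Ω) :=
    integrable_comp hK hb (φ := fun A : M2 => W (F₀ + δ • A)) (hW.continuous.comp (by fun_prop))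
  have i2 : Integrable (fun x => V (F₁ + grad ϑ x)) (volume.restrict Ω) :=
    integrable_comp hK hb (φ := fun A : M2 => V (F₁ + A)) (hV.continuous.comp (by fun_prop))
  have i3 : Integrable (fun x => L (grad ϑ x)) (volume.restrict Ω) :=
    integrable_comp hK hb (φ := fun A : M2 => L A) L.continuous_of_finiteDimensional
  have h1 : ∫ x in Ω, W (F₀ + δ • grad ϑ x) ≤
      ∫ x in Ω, (((a + ε * (c * δ)) + L (grad ϑ x)) + c * δ * V (F₁ + grad ϑ x)) := by
    refine integral_mono i1 (((integrable_const _).add i3).add (i2.const_mul _)) fun x => ?_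
    have := (abs_lt.1 (hL _ (hbd x))).2
    simp only at this ⊢
    linarith
  have e1 : ∫ x in Ω, (((a + ε * (c * δ)) + L (grad ϑ x)) + c * δ * V (F₁ + grad ϑ x)) =
      (a + ε * (c * δ)) * m + c * δ * ∫ x in Ω, V (F₁ + grad ϑ x) := by
    have i4 : Integrable (fun x => (a + ε * (c * δ)) + L (grad ϑ x)) (volume.restrict Ω) :=
      (integrable_const _).add i3
    have i5 : Integrable (fun x => c * δ * V (F₁ + grad ϑ x)) (volume.restrict Ω) :=
      i2.const_mul _
    rw [integral_add i4 i5,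
      integral_add (integrable_const _) i3, integral_lin hK hΩ hb h0, integral_const,
      integral_const_mul, add_zero, smul_eq_mul, measureReal_restrict_apply_univ]
    have : volume.real Ω = m := rfl
    rw [this]
    ring
  have h2 := (abs_lt.1 (hL 0 (by rw [nrm_zero]; exact K.2))).1
  simp only [smul_zero, add_zero, map_zero] at h2
  have e2 : ∀ x, grad (δ • ϑ) x = δ • grad ϑ x := fun x => grad_smul δ x
  simp only [e2]
  rw [e1] at h1
  have h3 : 2 * ε * m < g := by
    have h4 : ε ≤ g / (4 * (m + 1)) := min_le_right _ _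
    rw [le_div_iff₀ (by positivity)] at h4
    nlinarith
  have h5 : ∫ x in Ω, V (F₁ + grad ϑ x) = V F₁ * m - g := by rw [hg]; ring
  rw [h5] at h1
  have h6 : (a + c * δ * V F₁ - ε * (c * δ)) * m ≤ W F₀ * m :=
    mul_le_mul_of_nonneg_right (by linarith) hm0
  have h7 : c * δ * (2 * ε * m) < c * δ * g := mul_lt_mul_of_pos_left h3 hcd
  nlinarith

end Pool.Agent.X91.MQ
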