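import Pool.Agent.X91.MQ.Diff

/-!
# Universality of typical rank-one convex functions
-/

set_option autoImplicit false

open Set Filter Topology MeasureTheory

namespace Pool.Agent.X91.MQ

open Pool.Agent.Helper188.Morrey Pool.Agent.X103.Morrey1

instance : LocallyCompactSpace M2 := inferInstanceAs (LocallyCompactSpace (Fin 2 → Fin 2 → ℝ))
instance : SigmaCompactSpace M2 := inferInstanceAs (SigmaCompactSpace (Fin 2 → Fin 2 → ℝ))
instance : SecondCountableTopology M2 :=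
  inferInstanceAs (SecondCountableTopology (Fin 2 → Fin 2 → ℝ))

/-- At `F₀` and at a scale less than `ε` the function `W` is, up to an affine function, a small
multiple of `h` on the ball of radius `R`, with relative error `ε`. -/
def Good (W h : M2 → ℝ) (R ε : ℝ) (F₀ : M2) : Prop :=
  ∃ δ c : ℝ, 0 < δ ∧ δ < ε ∧ 0 < c ∧ c < ε ∧ ∃ (a : ℝ) (L : M2 →ₗ[ℝ] ℝ), ∀ X : M2, nrm X ≤ R →
    |W (F₀ + δ • X) - (a + L X) - c * δ * h X| < ε * (c * δ)

lemma Good.mono {W h g : M2 → ℝ} {R R' ε ε' : ℝ} {F₀ : M2} (hG : Good W g R' ε' F₀)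
    (hR : R ≤ R') (hε0 : 0 < ε) (hε : ε' ≤ ε / 2) (hg : ∀ X, nrm X ≤ R → |g X - h X| ≤ ε / 2) :
    Good W h R ε F₀ := by
  obtain ⟨δ, c, hδ, hδ', hc, hc', a, L, hL⟩ := hG
  refine ⟨δ, c, hδ, by linarith, hc, by linarith, a, L, fun X hX => ?_⟩
  have h1 := hL X (hX.trans hR)
  have h2 := hg X hX
  have hcd : 0 < c * δ := mul_pos hc hδ
  have e : W (F₀ + δ • X) - (a + L X) - c * δ * h X =
      (W (F₀ + δ • X) - (a + L X) - c * δ * g X) + c * δ * (g X - h X) := by ring
  rw [e]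
  have h3 := abs_add_le (W (F₀ + δ • X) - (a + L X) - c * δ * g X) (c * δ * (g X - h X))
  rw [abs_mul, abs_of_pos hcd] at h3
  have h4 := mul_le_mul_of_nonneg_left h2 hcd.le
  have h5 := mul_le_mul_of_nonneg_right hε hcd.le
  linarith

variable {X : Type*} [TopologicalSpace X]

lemma isOpen_good {ι : X → M2 → ℝ} (hc : Continuous fun p : X × M2 => ι p.1 p.2) {h : M2 → ℝ}
    (hh : Continuous h) (R ε : ℝ) : IsOpen {p : X × M2 | Good (ι p.1) h R ε p.2} := by
  rw [isOpen_iff_mem_nhds]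
  rintro p ⟨δ, c, hδ, hδ', hc0, hc', a, L, hL⟩
  have hLc : Continuous L := L.continuous_of_finiteDimensional
  have key : ∀ᶠ q in 𝓝 p, ∀ Y ∈ {Y : M2 | nrm Y ≤ R},
      |ι q.1 (q.2 + δ • Y) - (a + L Y) - c * δ * h Y| < ε * (c * δ) := by
    refine (isCompact_nrm R).eventually_forall_of_forall_eventually fun Y hY => ?_
    have hcont : Continuous fun z : (X × M2) × M2 =>
        |ι z.1.1 (z.1.2 + δ • z.2) - (a + L z.2) - c * δ * h z.2| := by
      have h1 : Continuous fun z : (X × M2) × M2 => ι z.1.1 (z.1.2 + δ • z.2) := by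
        have h0 : Continuous fun z : (X × M2) × M2 => ((z.1.1, z.1.2 + δ • z.2) : X × M2) :=
          (continuous_fst.comp continuous_fst).prodMk
            ((continuous_snd.comp continuous_fst).add (continuous_snd.const_smul δ))
        exact hc.comp h0
      have h2 : Continuous fun z : (X × M2) × M2 => a + L z.2 :=
        continuous_const.add (hLc.comp continuous_snd)
      have h3 : Continuous fun z : (X × M2) × M2 => c * δ * h z.2 :=
        continuous_const.mul (hh.comp continuous_snd)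
      exact ((h1.sub h2).sub h3).abs
    exact hcont.continuousAt.eventually_lt continuousAt_const (hL Y hY)
  filter_upwards [key] with q hq
  exact ⟨δ, c, hδ, hδ', hc0, hc', a, L, fun Y hY => hq Y hY⟩

lemma exists_ball_subset {U : Set M2} {A : M2} (hU : U ∈ 𝓝 A) :
    ∃ r : ℝ, 0 < r ∧ ∀ F : M2, nrm (F - A) < r → F ∈ U := by
  have hc : Continuous (fun F : V4 => (Matrix.of F : M2)) := by fun_prop
  have h1 : (fun F : V4 => (Matrix.of F : M2)) ⁻¹' U ∈ 𝓝 (fun i j => A i j : V4) :=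
    hc.continuousAt.preimage_mem_nhds hU
  obtain ⟨r, hr, hr2⟩ := Metric.mem_nhds_iff.1 h1
  refine ⟨r, hr, fun F hF => ?_⟩
  have h2 : (fun i j => F i j : V4) ∈ Metric.ball (fun i j => A i j : V4) r := by
    rw [Metric.mem_ball, dist_eq_norm]
    exact hF
  exact hr2 h2

/-- Linear growth. -/
def LinGrowth (H : M2 → ℝ) : Prop := ∃ C : ℝ, 0 ≤ C ∧ ∀ X, |H X| ≤ C * (1 + nrm X)

/-- The space `X` is stable under small multiples of rescaled rank-one convex functions of linear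
growth. -/
def Stable (ι : X → M2 → ℝ) : Prop :=
  ∀ x, ∀ U ∈ 𝓝 x, ∀ (F₀ : M2) (H : M2 → ℝ), RankOneConvex H → LinGrowth H →
    ∃ c₀ : ℝ, 0 < c₀ ∧ ∀ c, 0 < c → c < c₀ → ∀ δ, 0 < δ → δ ≤ 1 → ∃ y ∈ U, ∀ F,
      ι y F = ι x F + c * δ * H (δ⁻¹ • (F - F₀))

lemma dense_step {ι : X → M2 → ℝ} (hRC : ∀ x, RankOneConvex (ι x)) (hs : Stable ι)
    {h : M2 → ℝ} (hh : RankOneConvex h) {R ε : ℝ} (hε : 0 < ε) {x : X} {U : Set X}
    (hU : U ∈ 𝓝 x) {A : M2} {V : Set M2} (hV : V ∈ 𝓝 A) :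
    ∃ y ∈ U, ∃ F₀ ∈ V, Good (ι y) h R ε F₀ := by
  obtain ⟨r, hr, hr2⟩ := exists_ball_subset hV
  obtain ⟨F₀, hF₀, L, hL⟩ := exists_linAt (hRC x) A hr
  obtain ⟨H, hH1, hH2, hH3, -⟩ := glue hh (max R 0) (le_max_right _ _)
  obtain ⟨c₀, hc₀, hc⟩ := hs x U hU F₀ H hH1 hH3
  set c : ℝ := min c₀ ε / 2 with hcdef
  have hm : 0 < min c₀ ε := lt_min hc₀ hε
  have hc0 : 0 < c := by positivity
  have hc1 : c < c₀ := by
    have := min_le_left c₀ ε
    linarith
  have hc2 : c < ε := by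
    have := min_le_right c₀ ε
    linarith
  set N : ℝ := max R 0 + 1 with hN
  have hN0 : 0 < N := by
    have := le_max_right R 0
    linarith
  obtain ⟨ρ, hρ, hρ2⟩ := hL (ε * c / (2 * N)) (by positivity)
  set δ : ℝ := min (min 1 (ε / 2)) (ρ / N) with hδdef
  have hδ0 : 0 < δ := lt_min (lt_min one_pos (by positivity)) (by positivity)
  have hδ1 : δ ≤ 1 := (min_le_left _ _).trans (min_le_left _ _)
  have hδ2 : δ < ε := by
    have : δ ≤ ε / 2 := (min_le_left _ _).trans (min_le_right _ _)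
    linarith
  have hδ3 : δ * N ≤ ρ := by
    have : δ ≤ ρ / N := min_le_right _ _
    rwa [le_div_iff₀ hN0] at this
  obtain ⟨y, hy, hyF⟩ := hc c hc0 hc1 δ hδ0 hδ1
  refine ⟨y, hy, F₀, hr2 F₀ hF₀, δ, c, hδ0, hδ2, hc0, hc2, ι x F₀, δ • L, fun Y hY => ?_⟩
  have hYN : nrm Y ≤ N := hY.trans ((le_max_left R 0).trans (by linarith))
  have e1 : δ⁻¹ • (F₀ + δ • Y - F₀) = Y := by
    rw [add_sub_cancel_left, smul_smul, inv_mul_cancel₀ hδ0.ne', one_smul]
  have h1 : nrm (δ • Y) = δ * nrm Y := by rw [nrm_smul, abs_of_pos hδ0]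
  have h2 : nrm (δ • Y) ≤ ρ := by
    rw [h1]
    exact (mul_le_mul_of_nonneg_left hYN hδ0.le).trans hδ3
  have h3 := hρ2 (δ • Y) h2
  rw [h1, map_smul, smul_eq_mul] at h3
  rw [hyF, e1, hH2 Y (hY.trans (le_max_left _ _)), LinearMap.smul_apply, smul_eq_mul]
  have e2 : ι x (F₀ + δ • Y) + c * δ * h Y - (ι x F₀ + δ * L Y) - c * δ * h Y =
      ι x (F₀ + δ • Y) - ι x F₀ - δ * L Y := by ring
  rw [e2]
  refine h3.trans_lt ?_
  have h4 : ε * c / (2 * N) * (δ * nrm Y) ≤ ε * c / (2 * N) * (δ * N) :=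
    mul_le_mul_of_nonneg_left (mul_le_mul_of_nonneg_left hYN hδ0.le) (by positivity)
  have h5 : ε * c / (2 * N) * (δ * N) = ε * (c * δ) / 2 := by
    field_simp
  have h6 : 0 < ε * (c * δ) := by positivity
  linarith

/-- For typical `x` the set of the good matrices is open and dense, for each `h`. -/
lemma typical_one [BaireSpace X] {ι : X → M2 → ℝ} (hRC : ∀ x, RankOneConvex (ι x))
    (hc : Continuous fun p : X × M2 => ι p.1 p.2) (hs : Stable ι)
    {h : M2 → ℝ} (hh : RankOneConvex h) {R ε : ℝ} (hε : 0 < ε) :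
    ∀ᶠ x in residual X, IsOpen {F₀ | Good (ι x) h R ε F₀} ∧ Dense {F₀ | Good (ι x) h R ε F₀} := by
  have hop := isOpen_good (ι := ι) hc hh.continuous R ε
  have hB := TopologicalSpace.countable_countableBasis M2
  have h1 : ∀ b ∈ TopologicalSpace.countableBasis M2,
      ∀ᶠ x in residual X, ∃ F₀ ∈ b, Good (ι x) h R ε F₀ := by
    intro b hb
    have hbo := TopologicalSpace.isOpen_of_mem_countableBasis hb
    obtain ⟨A, hA⟩ := TopologicalSpace.nonempty_of_mem_countableBasis hb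
    apply residual_of_dense_open
    · have e : {x | ∃ F₀ ∈ b, Good (ι x) h R ε F₀} =
          Prod.fst '' ({p : X × M2 | Good (ι p.1) h R ε p.2} ∩ (univ ×ˢ b)) := by
        ext x
        constructor
        · rintro ⟨F₀, hF, hG⟩
          exact ⟨(x, F₀), ⟨hG, mem_univ _, hF⟩, rfl⟩
        · rintro ⟨⟨x', F₀⟩, ⟨hG, -, hF⟩, rfl⟩
          exact ⟨F₀, hF, hG⟩
      rw [e]
      exact isOpenMap_fst _ (hop.inter (isOpen_univ.prod hbo))
    · intro x
      rw [mem_closure_iff_nhds]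
      intro U hU
      obtain ⟨y, hy, F₀, hF, hG⟩ := dense_step hRC hs hh hε hU (hbo.mem_nhds hA) (R := R)
      exact ⟨y, hy, F₀, hF, hG⟩
  have h2 : ∀ᶠ x in residual X, ∀ b ∈ TopologicalSpace.countableBasis M2,
      ∃ F₀ ∈ b, Good (ι x) h R ε F₀ := (eventually_countable_ball hB).2 h1
  filter_upwards [h2] with x hx
  constructor
  · have : {F₀ | Good (ι x) h R ε F₀} = (fun F => (x, F)) ⁻¹' {p : X × M2 | Good (ι p.1) h R ε p.2} :=
      rfl
    rw [this]
    exact hop.preimage (by fun_prop)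
  · rw [dense_iff_inter_open]
    intro U hU ⟨A, hA⟩
    obtain ⟨b, hb, hAb, hbU⟩ := (TopologicalSpace.isBasis_countableBasis M2).exists_subset_of_mem_open
      hA hU
    obtain ⟨F₀, hF, hG⟩ := hx b hb
    exact ⟨F₀, hbU hF, hG⟩

/-- The set of the rank-one convex functions, as continuous functions. -/
def RCset : Set C(M2, ℝ) := {g | RankOneConvex g}

lemma isClosed_RCset : IsClosed RCset := by
  have e : RCset = ⋂ (F : M2) (H : M2) (_ : H.rank = 1) (t : ℝ) (_ : 0 ≤ t) (_ : t ≤ 1),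
      {g : C(M2, ℝ) | g ((1 - t) • F + t • (F + H)) ≤ (1 - t) * g F + t * g (F + H)} := by
    ext g
    simp only [RCset, RankOneConvex, mem_ofPred_eq, mem_iInter]
  rw [e]
  refine isClosed_iInter fun F => isClosed_iInter fun H => isClosed_iInter fun _ =>
    isClosed_iInter fun t => isClosed_iInter fun _ => isClosed_iInter fun _ => ?_
  refine isClosed_le (continuous_eval_const _) ?_
  exact ((continuous_eval_const F).const_mul _).add ((continuous_eval_const (F + H)).const_mul _)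

lemma rankOneConvex_zero : RankOneConvex (fun _ : M2 => (0 : ℝ)) := by
  intro F H _ t _ _
  simp

/-- A sequence of rank-one convex functions which is dense for locally uniform convergence. -/
lemma exists_seq : ∃ g : ℕ → M2 → ℝ, (∀ k, RankOneConvex (g k)) ∧
    ∀ h : M2 → ℝ, RankOneConvex h → ∀ R ε : ℝ, 0 < ε →
      ∃ k, ∀ X, nrm X ≤ R → |g k X - h X| ≤ ε := by
  haveI : Nonempty RCset := ⟨⟨⟨fun _ => 0, continuous_const⟩, rankOneConvex_zero⟩⟩
  obtain ⟨u, hu⟩ := TopologicalSpace.exists_dense_seq RCset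
  refine ⟨fun k => (u k : C(M2, ℝ)), fun k => (u k).2, fun h hh R ε hε => ?_⟩
  set y : RCset := ⟨⟨h, hh.continuous⟩, hh⟩ with hy
  have key : ∀ᶠ z : RCset in 𝓝 y, ∀ Y ∈ {Y : M2 | nrm Y ≤ R}, |(z : C(M2, ℝ)) Y - h Y| < ε := by
    refine (isCompact_nrm R).eventually_forall_of_forall_eventually fun Y hY => ?_
    have hcont : Continuous fun p : RCset × M2 => |(p.1 : C(M2, ℝ)) p.2 - h p.2| := by
      have h1 : Continuous fun p : RCset × M2 => (p.1 : C(M2, ℝ)) p.2 := by fun_prop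
      exact (h1.sub (hh.continuous.comp continuous_snd)).abs
    refine hcont.continuousAt.eventually_lt continuousAt_const ?_
    show |h Y - h Y| < ε
    simpa using hε
  obtain ⟨k, hk⟩ := (hu.exists_mem_open isOpen_interior ⟨y, mem_interior_iff_mem_nhds.2 key⟩)
  exact ⟨k, fun X hX => ((interior_subset hk) X hX).le⟩

/-- Universality: all rank-one convex functions are blow-ups, at dense open sets of matrices for
each accuracy. -/
def Universal (W : M2 → ℝ) : Prop :=
  ∀ h : M2 → ℝ, RankOneConvex h → ∀ R ε : ℝ, 0 < ε →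
    ∃ G : Set M2, IsOpen G ∧ Dense G ∧ ∀ F₀ ∈ G, Good W h R ε F₀

theorem typical_universal [BaireSpace X] {ι : X → M2 → ℝ} (hRC : ∀ x, RankOneConvex (ι x))
    (hc : Continuous fun p : X × M2 => ι p.1 p.2) (hs : Stable ι) :
    ∀ᶠ x in residual X, Universal (ι x) := by
  obtain ⟨g, hg1, hg2⟩ := exists_seq
  have h1 : ∀ᶠ x in residual X, ∀ (k N n : ℕ),
      IsOpen {F₀ | Good (ι x) (g k) N (1 / ((n : ℝ) + 1)) F₀} ∧
        Dense {F₀ | Good (ι x) (g k) N (1 / ((n : ℝ) + 1)) F₀} := by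
    refine eventually_countable_forall.2 fun k => eventually_countable_forall.2 fun N =>
      eventually_countable_forall.2 fun n => ?_
    exact typical_one hRC hc hs (hg1 k) (by positivity)
  filter_upwards [h1] with x hx h hh R ε hε
  obtain ⟨k, hk⟩ := hg2 h hh R (ε / 2) (by positivity)
  obtain ⟨N, hN⟩ := exists_nat_ge R
  obtain ⟨n, hn⟩ := exists_nat_one_div_lt (show 0 < ε / 2 by positivity)
  obtain ⟨ho, hd⟩ := hx k N n
  exact ⟨_, ho, hd, fun F₀ hF => Good.mono hF hN hε hn.le hk⟩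

end Pool.Agent.X91.MQ
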